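import Mathlib
import Pool.Agent.R890.FF.Blk
import Pool.Agent.T9h67.DOM.Fin6

set_option autoImplicit false

/-!
# Cographic tangential 2-blocks with a given domination number (MP_aa6b05_co)

Let `S` represent over GF(2) the cographic matroid `M*(G)` of a graph `G` with domination number
`k`: there are `k` vertices such that every other vertex is joined to one of them by an edge.  If `S`
is a tangential 2-block then `S` has at most `322 k ^ 3` elements; more generally every 2-block `S` of
this kind has a RESTRICTION which is a 2-block with at most `322 k ^ 3` elements.  So for each `k`
the conjecture for the cographic matroids of the graphs with domination number `k` is a question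
about finitely many graphs, although the rank, the degrees and the number of vertices (of odd
degree) of these graphs are unbounded; and the domination number of the graph of a cographic
tangential 2-block with `m` elements is at least `(m / 322) ^ (1 / 3)`.  In terms of flows: a
bridgeless graph with domination number `k` has a nowhere-zero 4-flow if its quotients with at most
`322 k ^ 3` edges have one.

More generally it is sufficient that `k` vertices dominate after circuits with at most four edges
have been contracted as long as possible (`Tied`, `Dominate`).

Proof.  Let `H` be a graph obtained from `G` by identification of vertices without nowhere-zero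
4-flow and without Petersen quotient, all of whose proper quotients have a flow (starting library
`R890/FF`); the images of the `k` vertices form a dominating set `D` of `H`.  `H` has no circuit with
at most four edges, all degrees are at least three, and every set `W` of vertices spans at most
`2 |W| - 3` edges.  By double counting all but `4 k` of the outer vertices (those not in `D`) are
good: they have degree three and exactly one neighbour (the hub) in `D`.  So the good vertices form
circuits and paths with at most `20 k` ends.  Let `U` be a set of good vertices with hubs in
`X ⊆ D`, and let `a` be the number of its vertices with an outer neighbour outside `U`.  Then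
`|U| ≤ 3 |X| a + 96 |X| ^ 3`, by induction on `|X|`.  If for each partition `X = Y ∪ Z` more than
`48 |X|` edges far from the ends join the classes of `Y` and `Z`, then one chooses greedily two
spanning trees of such edges `e` (places) of mutual distance at least two, and prescribes the same
value on the two edges next to `e`, `a` for the first and `b` for the second tree.  The graph
obtained by contraction of the region formed by `X` and `U` has a flow; outside the region it is kept.
The other edges between vertices of `U` are coloured greedily such that adjacent edges get different
values, and the two admissible values at a place can be exchanged; this changes the sums at the two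
hubs.  So all sums at the hubs can be corrected and `H` has a flow, a contradiction.  If there is
a partition with few edges then `U` is divided, and the ends are counted.
-/

namespace Pool.Agent.Results.MP_aa6b05_co.DominationFinite

/-- The incidence vector of the vertex `v` over GF(2): the coordinate of an edge is the number of
its ends which are `v`, modulo 2 (so loops give 0). -/
def star {V E : Type} [DecidableEq V] (src dst : E → V) (v : V) : E → ZMod 2 :=
  fun e => (if src e = v then 1 else 0) + (if dst e = v then 1 else 0)

/-- The vectors `vec e` represent the cographic matroid of the graph: the linear relations between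
them are exactly the elements of the cut space, which is spanned by the incidence vectors. -/
def RepresentsCographic {V E : Type} [DecidableEq V] [Fintype E] (src dst : E → V) {n : ℕ}
    (vec : E → Fin n → ZMod 2) : Prop :=
  ∀ x : E → ZMod 2, ∑ e, x e • vec e = 0 ↔
    x ∈ Submodule.span (ZMod 2) (Set.range (star src dst))

/-- The simple matroid represented by the set `S` of vectors over GF(2) is a 2-block: `S` has no
zero vector and no linear map to the plane over GF(2) is nonzero on all of `S`. -/
def IsTwoBlock {n : ℕ} (S : Set (Fin n → ZMod 2)) : Prop :=
  (0 : Fin n → ZMod 2) ∉ S ∧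
    ¬ ∃ L : (Fin n → ZMod 2) →ₗ[ZMod 2] (Fin 2 → ZMod 2), ∀ s ∈ S, L s ≠ 0

/-- `S` represents a tangential 2-block: it is a 2-block, and no proper minor without loops
(contract `C`, keep `T`) is a 2-block. This is the hypothesis of the frozen statement S10691. -/
def IsTangential {n : ℕ} (S : Set (Fin n → ZMod 2)) : Prop :=
  IsTwoBlock S ∧
    ∀ C T : Set (Fin n → ZMod 2), C ⊆ S → T ⊆ S → T ≠ S →
      (∀ t ∈ T, t ∉ Submodule.span (ZMod 2) C) →
      ∃ L : (Fin n → ZMod 2) →ₗ[ZMod 2] (Fin 2 → ZMod 2),
        (∀ c ∈ C, L c = 0) ∧ ∀ t ∈ T, L t ≠ 0

/-- The edge `e` joins the vertices `x` and `y`. -/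
def Joins {V E : Type} (src dst : E → V) (e : E) (x y : V) : Prop :=
  (src e = x ∧ dst e = y) ∨ (src e = y ∧ dst e = x)

/-- The vertices `x` and `y` are identified when circuits with at most four edges are contracted
as long as possible: the smallest equivalence relation such that, if `k ≤ 4` different edges
`e 0, …, e (k - 1)` join `x i` and `y i`, and `y i` is equivalent to `x (i + 1 mod k)`, then `x i` and
`y i` are equivalent. -/
inductive Tied {V E : Type} (src dst : E → V) : V → V → Prop
  | refl (x : V) : Tied src dst x x
  | symm (x y : V) : Tied src dst x y → Tied src dst y x
  | trans (x y z : V) : Tied src dst x y → Tied src dst y z → Tied src dst x z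
  | circuit (k : ℕ) (hk : k ≤ 4) (e : ℕ → E) (he : ∀ i < k, ∀ j < k, e i = e j → i = j)
      (x y : ℕ → V) (hxy : ∀ i < k, Joins src dst (e i) (x i) (y i))
      (hc : ∀ i < k, Tied src dst (y i) (x ((i + 1) % k))) (i : ℕ) (hi : i < k) :
      Tied src dst (x i) (y i)

/-- The vertices `d 0, …, d (k - 1)` dominate the graph, up to the contraction of short circuits:
every vertex `v` is tied to some `d i`, or it is tied to an end `x` of an edge whose other end `y` is
tied to `d i`. (Since every vertex is tied to itself, this is so if every vertex is one of the `d i`
or is joined to one of them by an edge.) -/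
def Dominate {V E : Type} (src dst : E → V) {k : ℕ} (d : Fin k → V) : Prop :=
  ∀ v, ∃ i, Tied src dst v (d i) ∨
    ∃ e x y, Joins src dst e x y ∧ Tied src dst v x ∧ Tied src dst y (d i)

/-- Let `S` be a set of vectors over GF(2) which represents the cographic matroid of a graph
(parallel elements are represented by the same vector).  Suppose that `k` vertices dominate the
graph, up to the contraction of circuits with at most four edges.  If `S` is a 2-block then it
contains a 2-block `T` with at most `322 * k ^ 3` elements; if `S` is a tangential 2-block then `S`
has at most `322 * k ^ 3` elements.  The second alternative of the hypothesis, that each vertex is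
one of the `d i` or is joined to one of them by an edge, is a special case of the first one. -/
theorem result :
    ∀ (n : ℕ) (S : Set (Fin n → ZMod 2)) (V E : Type) [Fintype V] [DecidableEq V] [Fintype E]
      [DecidableEq E] (src dst : E → V) (vec : E → Fin n → ZMod 2) (k : ℕ) (d : Fin k → V),
      RepresentsCographic src dst vec → Set.range vec = S →
      (Dominate src dst d ∨ ∀ v, ∃ i, v = d i ∨ ∃ e, Joins src dst e v (d i)) →
      (IsTwoBlock S → ∃ T ⊆ S, IsTwoBlock T ∧ T.ncard ≤ 322 * k ^ 3) ∧
      (IsTangential S → S.ncard ≤ 322 * k ^ 3) := by
  classical
  intro n S V E _ _ _ _ src dst vec k d hv hr h3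
  have hT : ∀ x y, Tied src dst x y → Pool.Agent.T9h67.DOM.Tied src dst x y := by
    intro x y h
    induction h with
    | refl x => exact .refl x
    | symm x y _ ih => exact .symm x y ih
    | trans x y z _ _ ih1 ih2 => exact .trans x y z ih1 ih2
    | circuit k hk e he x y hxy _ i hi ih => exact .circuit k hk e he x y hxy ih i hi
  have hdom : ∀ v, ∃ i, Pool.Agent.T9h67.DOM.Tied src dst v (d i) ∨
      Pool.Agent.T9h67.DOM.TiedAdj src dst v (d i) := by
    intro v
    rcases h3 with h3 | h3
    · obtain ⟨i, hi | ⟨e, x, y, h4, h5, h6⟩⟩ := h3 v
      · exact ⟨i, Or.inl (hT _ _ hi)⟩
      · exact ⟨i, Or.inr ⟨e, x, y, h4, hT _ _ h5, hT _ _ h6⟩⟩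
    · obtain ⟨i, hi | ⟨e, h4⟩⟩ := h3 v
      · exact ⟨i, Or.inl (hi ▸ .refl _)⟩
      · exact ⟨i, Or.inr ⟨e, v, d i, h4, .refl _, .refl _⟩⟩
  have main : IsTwoBlock S → ∃ T ⊆ S, IsTwoBlock T ∧ T.ncard ≤ 322 * k ^ 3 := by
    intro h
    obtain ⟨T, h4, h5, h6⟩ := Pool.Agent.T9h67.DOM.small_block
      (hv : Pool.Agent.TH676.Blk.RepCo src dst vec) hr d hdom h.1 h.2
    exact ⟨T, h4, ⟨fun h7 => h.1 (h4 h7), h5⟩, h6⟩
  refine ⟨main, ?_⟩
  rintro ⟨h2, htan⟩
  obtain ⟨T, h4, h5, h6⟩ := main h2
  by_cases hTS : T = S
  · rw [← hTS]
    exact h6
  · exfalso
    obtain ⟨L, -, hL⟩ := htan ∅ T (Set.empty_subset _) h4 hTS (fun t ht h7 => by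
      rw [Submodule.span_empty, Submodule.mem_bot] at h7
      exact h5.1 (h7 ▸ ht))
    exact h5.2 ⟨L, hL⟩

end Pool.Agent.Results.MP_aa6b05_co.DominationFinite
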